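import Pool.Agent.Helper68.Fam.Family

/-!
# Project FAM (MP_18808e_co): DOWN
-/

namespace NApexGraphs.Fam.Helper45

open SimpleGraph NApexGraphs NApexGraphs.Dom NApexGraphs.Fam

section Down

variable {V : Type} [DecidableEq V] {G : SimpleGraph V} {F : Finset (Finset V)}

/-- the inclusion of the vertices of the graph without the `Y` of `T` -/
def incl (F : Finset (Finset V)) (T : {T // T ∈ F}) :
    V ⊕ {S // S ∈ F.erase T.1} → V ⊕ {S // S ∈ F}
  | Sum.inl x => Sum.inl x
  | Sum.inr S => Sum.inr ⟨S.1, Finset.mem_of_mem_erase S.2⟩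

theorem incl_injective (T : {T // T ∈ F}) : Function.Injective (incl F T) := by
  rintro (x | S) (y | S') h
  · simp only [incl, Sum.inl.injEq] at h
    rw [h]
  · simp [incl] at h
  · simp [incl] at h
  · simp only [incl, Sum.inr.injEq, Subtype.mk.injEq] at h
    rw [Subtype.ext h]

theorem incl_ne (T : {T // T ∈ F}) (y : V ⊕ {S // S ∈ F.erase T.1}) : incl F T y ≠ Sum.inr T := by
  rcases y with x | S
  · simp [incl]
  · intro h
    simp only [incl, Sum.inr.injEq] at h
    exact Finset.ne_of_mem_erase S.2 (congrArg Subtype.val h)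

theorem exists_incl (T : {T // T ∈ F}) (z : V ⊕ {S // S ∈ F}) (hz : z ≠ Sum.inr T) :
    ∃ y, incl F T y = z := by
  rcases z with x | S
  · exact ⟨Sum.inl x, rfl⟩
  · refine ⟨Sum.inr ⟨S.1, Finset.mem_erase.2 ⟨?_, S.2⟩⟩, rfl⟩
    intro h
    exact hz (by rw [Subtype.ext h])

/-- adjacency is the same for two vertices which are not both points of `T` -/
theorem incl_adj (T : {T // T ∈ F}) (y y' : V ⊕ {S // S ∈ F.erase T.1})
    (h : ¬ ((∃ x ∈ T.1, y = Sum.inl x) ∧ (∃ x ∈ T.1, y' = Sum.inl x))) :
    (YG G F).Adj (incl F T y) (incl F T y') ↔ (YG G (F.erase T.1)).Adj y y' := by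
  rcases y with x | S <;> rcases y' with x' | S'
  · constructor
    · intro h'
      exact ⟨h'.1, fun S hS => h'.2 S (Finset.mem_of_mem_erase hS)⟩
    · intro h'
      refine ⟨h'.1, fun S hS => ?_⟩
      by_cases hST : S = T.1
      · rintro ⟨h1, h2⟩
        rw [hST] at h1 h2
        exact h ⟨⟨x, h1, rfl⟩, ⟨x', h2, rfl⟩⟩
      · exact h'.2 S (Finset.mem_erase.2 ⟨hST, hS⟩)
  · exact Iff.rfl
  · exact Iff.rfl
  · exact Iff.rfl

theorem yg_adj_inr (T : {T // T ∈ F}) (y : V ⊕ {S // S ∈ F.erase T.1}) :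
    (YG G F).Adj (Sum.inr T) (incl F T y) ↔ ∃ x ∈ T.1, y = Sum.inl x := by
  rcases y with x | S
  · constructor
    · intro h
      exact ⟨x, h, rfl⟩
    · rintro ⟨x', hx', h⟩
      rw [Sum.inl.injEq] at h
      subst h
      exact hx'
  · constructor
    · intro h
      exact absurd h id
    · rintro ⟨x', _, h⟩
      exact absurd h Sum.inr_ne_inl

theorem tri_erase (hF : Tri G F) (T : Finset V) : Tri G (F.erase T) where
  card S hS := hF.card S (Finset.mem_of_mem_erase hS)
  clique S hS := hF.clique S (Finset.mem_of_mem_erase hS)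
  pair S hS S' hS' := hF.pair S (Finset.mem_of_mem_erase hS) S' (Finset.mem_of_mem_erase hS')

/-- two different points of `T` are adjacent after the inverse move -/
theorem adj_of_mem (hF : Tri G F) (T : {T // T ∈ F}) {x y : V} (hx : x ∈ T.1) (hy : y ∈ T.1)
    (hxy : x ≠ y) : (YG G (F.erase T.1)).Adj (Sum.inl x) (Sum.inl y) := by
  refine ⟨hF.clique T.1 T.2 x hx y hy hxy, fun S hS h => ?_⟩
  have h1 := hF.pair S (Finset.mem_of_mem_erase hS) T.1 T.2 (Finset.ne_of_mem_erase hS)
  have h2 : 1 < (S ∩ T.1).card :=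
    Finset.one_lt_card.2 ⟨x, Finset.mem_inter.2 ⟨h.1, hx⟩, y, Finset.mem_inter.2 ⟨h.2, hy⟩, hxy⟩
  omega

end Down

theorem gDOWN : Goals.DOWN := by
  intro V _ _ G F hF W A a b c hab hac hbc e T heT
  refine ⟨F.erase T.1, tri_erase hF T.1, ?_⟩
  have hex : ∀ w : W, ∃ y, incl F T y = e (some w) := by
    intro w
    refine exists_incl T _ ?_
    rw [← heT]
    intro h
    exact absurd (e.injective h) (by simp)
  choose φ hφ using hex
  have hinj : Function.Injective φ := by
    intro w w' h
    have h1 : e (some w) = e (some w') := by rw [← hφ w, ← hφ w', h]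
    exact Option.some_injective _ (e.injective h1)
  have hsurj : Function.Surjective φ := by
    intro y
    obtain ⟨o, ho⟩ := e.surjective (incl F T y)
    rcases o with _ | w
    · rw [heT] at ho
      exact absurd ho.symm (incl_ne T y)
    · refine ⟨w, incl_injective T ?_⟩
      rw [hφ w, ho]
  have hmem : ∀ w : W, (w = a ∨ w = b ∨ w = c) ↔ ∃ x ∈ T.1, φ w = Sum.inl x := by
    intro w
    rw [← yg_adj_inr (G := G) T (φ w), hφ w, ← heT]
    exact (e.map_adj_iff (v := none) (w := some w)).symm
  have hadj : ∀ w w' : W, (YG G (F.erase T.1)).Adj (φ w) (φ w') ↔ A.Adj w w' := by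
    intro w w'
    by_cases hb : (w = a ∨ w = b ∨ w = c) ∧ (w' = a ∨ w' = b ∨ w' = c)
    · obtain ⟨x, hx, hwx⟩ := (hmem w).1 hb.1
      obtain ⟨y, hy, hwy⟩ := (hmem w').1 hb.2
      have h1 : A.Adj w w' ↔ w ≠ w' := by
        constructor
        · exact fun h => h.ne
        · intro hne
          obtain ⟨h1, h2⟩ := hb
          rcases h1 with rfl | rfl | rfl <;> rcases h2 with rfl | rfl | rfl <;>
            first
              | exact absurd rfl hne
              | assumption
              | (apply SimpleGraph.Adj.symm; assumption)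
      rw [h1, hwx, hwy]
      constructor
      · intro h hne
        subst hne
        rw [hwx] at hwy
        rw [Sum.inl.injEq] at hwy
        exact h.1.ne hwy
      · intro hne
        refine adj_of_mem hF T hx hy ?_
        intro hxy
        apply hne
        apply hinj
        rw [hwx, hwy, hxy]
    · have h1 : ¬ ((∃ x ∈ T.1, φ w = Sum.inl x) ∧ (∃ x ∈ T.1, φ w' = Sum.inl x)) := by
        rw [← hmem w, ← hmem w']
        exact hb
      rw [← incl_adj (G := G) T (φ w) (φ w') h1, hφ w, hφ w']
      rw [e.map_adj_iff (v := some w) (w := some w')]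
      constructor
      · exact fun h => h.1
      · exact fun h => ⟨h, hb⟩
  exact ⟨{ toEquiv := Equiv.ofBijective φ ⟨hinj, hsurj⟩, map_rel_iff' := fun {w w'} => hadj w w' }⟩

end NApexGraphs.Fam.Helper45
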