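import Pool.Agent.Helper68.Fam.Goals

/-!
# Project FAM (MP_18808e_co): TRANSFER
-/

namespace NApexGraphs.Fam.Helper45

open SimpleGraph NApexGraphs NApexGraphs.Dom NApexGraphs.Fam

variable {V W : Type}

/-- an injective map which preserves the edges inside `Z` maps models to models -/
theorem model_image {κ : Type} {K : SimpleGraph κ} {G : SimpleGraph V} {H : SimpleGraph W}
    (f : V → W) (hf : Function.Injective f) {Z : Set V}
    (hadj : ∀ x ∈ Z, ∀ y ∈ Z, G.Adj x y → H.Adj (f x) (f y)) {B : κ → Set V}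
    (hB : IsModel K G B) (hs : ∀ k, B k ⊆ Z) : IsModel K H (fun k => f '' B k) := by
  rw [isModel_iff] at hB ⊢
  obtain ⟨hc, hd, ha⟩ := hB
  refine ⟨?_, ?_, ?_⟩
  · intro k
    obtain ⟨hne, hcl⟩ := hc k
    refine ⟨hne.image _, ?_⟩
    intro A hA hAne hAcl
    have h2 := hcl (B k ∩ f ⁻¹' A) Set.inter_subset_left ?_ ?_
    · rintro _ ⟨b, hb, rfl⟩
      exact (h2 hb).2
    · obtain ⟨a, haA⟩ := hAne
      obtain ⟨b, hb, rfl⟩ := hA haA
      exact ⟨b, hb, haA⟩
    · rintro x ⟨hx, hxA⟩ y hy hxy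
      exact ⟨hy, hAcl (f x) hxA (f y) ⟨y, hy, rfl⟩ (hadj x (hs k hx) y (hs k hy) hxy)⟩
  · intro k l hkl
    exact (Set.disjoint_image_iff hf).2 (hd k l hkl)
  · intro k l hkl
    obtain ⟨x, hx, y, hy, hxy⟩ := ha k l hkl
    exact ⟨f x, ⟨x, hx, rfl⟩, f y, ⟨y, hy, rfl⟩, hadj x (hs k hx) y (hs l hy) hxy⟩

theorem not_pl_image {G : SimpleGraph V} {H : SimpleGraph W} (f : V → W)
    (hf : Function.Injective f) {Z : Set V} {Z' : Set W}
    (hadj : ∀ x ∈ Z, ∀ y ∈ Z, G.Adj x y → H.Adj (f x) (f y)) (hZ : ∀ x ∈ Z, f x ∈ Z')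
    (h : ¬ Pl G Z) : ¬ Pl H Z' := by
  have key : ∀ (κ : Type) (B : κ → Set V), (∀ k, B k ⊆ Z) → ∀ k, f '' B k ⊆ Z' := by
    rintro κ B hs k _ ⟨b, hb, rfl⟩
    exact hZ b (hs k hb)
  intro h2
  apply h
  refine ⟨?_, ?_⟩
  · rintro ⟨B, hB, hs⟩
    exact h2.1 ⟨_, model_image f hf hadj hB hs, key _ B hs⟩
  · rintro ⟨B, hB, hs⟩
    exact h2.2 ⟨_, model_image f hf hadj hB hs, key _ B hs⟩

/-- the intermediate graphs: the pairs inside the members of `F` which are in `X` or in `A` are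
deleted, and the members of `A` are replaced by `Y`s -/
def GA (G : SimpleGraph V) (F : Finset (Finset V)) (X : Set (V ⊕ {T // T ∈ F}))
    (A : Set {T // T ∈ F}) : SimpleGraph (V ⊕ {T // T ∈ F}) where
  Adj x y := match x, y with
    | Sum.inl a, Sum.inl b => G.Adj a b ∧
        ∀ T : {T // T ∈ F}, (Sum.inr T ∈ X ∨ T ∈ A) → ¬ (a ∈ T.1 ∧ b ∈ T.1)
    | Sum.inl a, Sum.inr T => a ∈ T.1 ∧ T ∈ A
    | Sum.inr T, Sum.inl b => b ∈ T.1 ∧ T ∈ A
    | Sum.inr _, Sum.inr _ => False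
  symm := ⟨by
    rintro (a | T) (b | T') h
    · exact ⟨h.1.symm, fun T hT h' => h.2 T hT ⟨h'.2, h'.1⟩⟩
    · exact h
    · exact h
    · exact h⟩
  loopless := ⟨by
    rintro (a | T) h
    · exact h.1.ne rfl
    · exact h⟩

/-- a finset with at most three elements of a nonempty type is contained in some `{a, b, c}` -/
theorem subset_three [DecidableEq V] (T : Finset V) (hT : T.card ≤ 3) (v : V) :
    ∃ a b c : V, ∀ x ∈ T, x = a ∨ x = b ∨ x = c := by
  have h : T.card = 0 ∨ T.card = 1 ∨ T.card = 2 ∨ T.card = 3 := by omega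
  rcases h with h | h | h | h
  · rw [Finset.card_eq_zero] at h
    subst h
    exact ⟨v, v, v, fun x hx => absurd hx (Finset.notMem_empty x)⟩
  · rw [Finset.card_eq_one] at h
    obtain ⟨a, rfl⟩ := h
    exact ⟨a, a, a, fun x hx => Or.inl (Finset.mem_singleton.1 hx)⟩
  · rw [Finset.card_eq_two] at h
    obtain ⟨a, b, _, rfl⟩ := h
    refine ⟨a, b, b, fun x hx => ?_⟩
    simp only [Finset.mem_insert, Finset.mem_singleton] at hx
    tauto
  · rw [Finset.card_eq_three] at h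
    obtain ⟨a, b, c, _, _, _, rfl⟩ := h
    refine ⟨a, b, c, fun x hx => ?_⟩
    simp only [Finset.mem_insert, Finset.mem_singleton] at hx
    tauto

/-- one step: `DY` for the new vertex `inr T` -/
theorem step (dy : Goals.DY) [DecidableEq V] (G : SimpleGraph V) (F : Finset (Finset V))
    (X : Set (V ⊕ {T // T ∈ F})) (hF : ∀ T ∈ F, T.card ≤ 3) (A : Set {T // T ∈ F})
    (T : {T // T ∈ F}) (hTX : Sum.inr T ∉ X) (hTA : T ∉ A) (h : ¬ Pl (GA G F X A) Xᶜ) :
    ¬ Pl (GA G F X (insert T A)) Xᶜ := by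
  -- the triple is contained in three vertices of the sum type
  have h3 : ∃ a b c : V ⊕ {T // T ∈ F}, ∀ x ∈ T.1, Sum.inl x = a ∨ Sum.inl x = b ∨
      Sum.inl x = c := by
    by_cases hV : Nonempty V
    · obtain ⟨v⟩ := hV
      obtain ⟨a, b, c, habc⟩ := subset_three T.1 (hF T.1 T.2) v
      refine ⟨Sum.inl a, Sum.inl b, Sum.inl c, fun x hx => ?_⟩
      rcases habc x hx with h | h | h
      · exact Or.inl (by rw [h])
      · exact Or.inr (Or.inl (by rw [h]))
      · exact Or.inr (Or.inr (by rw [h]))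
    · exact ⟨Sum.inr T, Sum.inr T, Sum.inr T, fun x _ => absurd ⟨x⟩ hV⟩
  obtain ⟨a, b, c, habc⟩ := h3
  refine dy _ (GA G F X A) (GA G F X (insert T A)) Xᶜ {z | ∃ x ∈ T.1, z = Sum.inl x ∧ z ∉ X}
    (Sum.inr T) a b c hTX ?_ ?_ ?_ ?_ ?_ ?_ h
  · rintro ⟨x, _, hx, _⟩
    exact absurd hx Sum.inr_ne_inl
  · rintro z ⟨x, _, _, hz⟩
    exact hz
  · rintro z ⟨x, hx, rfl, _⟩
    rcases habc x hx with h | h | h
    · exact Or.inl h
    · exact Or.inr (Or.inl h)
    · exact Or.inr (Or.inr h)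
  · rintro z ⟨x, hx, rfl, _⟩
    exact ⟨hx, Set.mem_insert T A⟩
  · rintro (x | T') _ hadj
    · exact hTA hadj.2
    · exact hadj
  · rintro (x | T1) hx (z | T2) hz hadj
    · by_cases hxz : x ∈ T.1 ∧ z ∈ T.1
      · exact Or.inr ⟨⟨x, hxz.1, rfl, hx⟩, ⟨z, hxz.2, rfl, hz⟩⟩
      · refine Or.inl ⟨hadj.1, ?_⟩
        rintro T' (hT' | hT')
        · exact hadj.2 T' (Or.inl hT')
        · rcases hT' with hT' | hT'
          · subst hT'
            exact hxz
          · exact hadj.2 T' (Or.inr hT')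
    · exact Or.inl ⟨hadj.1, Set.mem_insert_of_mem T hadj.2⟩
    · exact Or.inl ⟨hadj.1, Set.mem_insert_of_mem T hadj.2⟩
    · exact absurd hadj id

theorem gTRANSFER : Goals.DY → Goals.TRANSFER := by
  intro dy V _ _ G F X hF h0
  classical
  have hind : ∀ A : Finset {T // T ∈ F}, (∀ T ∈ A, Sum.inr T ∉ X) →
      ¬ Pl (GA G F (X : Set (V ⊕ {T // T ∈ F})) (A : Set {T // T ∈ F}))
        ((X : Set (V ⊕ {T // T ∈ F}))ᶜ) := by
    intro A
    induction A using Finset.induction_on with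
    | empty =>
      intro _
      refine not_pl_image (Sum.inl : V → V ⊕ {T // T ∈ F}) Sum.inl_injective ?_ ?_ h0
      · intro x _ y _ hxy
        refine ⟨hxy.1, ?_⟩
        rintro T (hT | hT)
        · exact hxy.2 T.1 ⟨T.2, hT⟩
        · exact absurd hT (by simp)
      · intro x hx hx'
        exact hx hx'
    | insert T A hTA ih =>
      intro hA
      have h1 := step dy G F (X : Set (V ⊕ {T // T ∈ F})) hF (A : Set {T // T ∈ F}) T
        (fun h => hA T (Finset.mem_insert_self T A) h) (fun h => hTA h)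
        (ih fun T' hT' => hA T' (Finset.mem_insert_of_mem hT'))
      rw [Finset.coe_insert]
      exact h1
  have h1 := hind ((Finset.univ : Finset {T // T ∈ F}).filter fun T => Sum.inr T ∉ X)
    (fun T hT => (Finset.mem_filter.1 hT).2)
  refine not_pl_congr ?_ h1
  rintro (x | T1) hx (z | T2) hz hadj
  · refine ⟨hadj.1, fun T hT => ?_⟩
    by_cases hTX : (Sum.inr ⟨T, hT⟩ : V ⊕ {T // T ∈ F}) ∈ X
    · exact hadj.2 ⟨T, hT⟩ (Or.inl hTX)
    · refine hadj.2 ⟨T, hT⟩ (Or.inr ?_)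
      rw [Finset.mem_coe, Finset.mem_filter]
      exact ⟨Finset.mem_univ _, hTX⟩
  · exact hadj.1
  · exact hadj.1
  · exact absurd hadj id

end NApexGraphs.Fam.Helper45
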